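import Mathlib
import Pool.Agent.R821.BpMain

/-!
# Reflexive pseudocompact group topologies on Boolean groups which are not selectively pseudocompact

Let `G` be an infinite Boolean group with a pseudocompact (Hausdorff) group topology. Then `G` has a
pseudocompact Hausdorff group topology which is reflexive and not selectively pseudocompact, and for which
all compact subsets are finite.

Sketch. Let `Λ` be a basis of the group of continuous homomorphisms `G → ℤ/2`. The given topology shows
that `G` is a family of functions on `Λ` which separates points and realises all countable patterns.
Reading along the initial segments of sequences (taking limits), the same number of functions realises all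
countable patterns on any set of size at most `|Λ|^ω`; in terms of the least size `m(λ)` of a `G_δ`-dense
subset of `{0,1}^λ`, this says `m(λ^ω) = m(λ)`, in ZFC. Since `|G| ≤ 2^|Λ|`, on a set of size `|Λ|^ω`
there is a family of `|G|` functions dual to it, and a triangular combination gives a `G × C`-matrix over
`ℤ/2` whose rows and whose columns realise all countable patterns. The group topology on
`G ≅ ⊕_G ℤ/2` given by the columns is pseudocompact, every homomorphism from a countable subgroup to
`ℤ/2` is a restriction of a continuous one, and the same holds for the dual.
-/

set_option autoImplicit false

open Topology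

namespace Pool.Agent.Results.MP_8fa6fd_gt.ReflexiveZFC

open Pool.Agent.R821 Pool.Agent.R821.Bp

universe u

theorem result : ∀ (G : Type u) [CommGroup G] [Infinite G], (∀ x : G, x * x = 1) →
    (∃ t : TopologicalSpace G, @IsTopologicalGroup G t _ ∧ @T2Space G t ∧ @Pseudocompact G t) →
    ∃ t : TopologicalSpace G, @IsTopologicalGroup G t _ ∧ @T2Space G t ∧ @Pseudocompact G t ∧
      @Reflexive G _ t ∧ ¬ @SelectivelyPseudocompact G t ∧
      ∀ K : Set G, @IsCompact G t K → K.Finite := by
  intro G _ _ hB h
  exact Pool.Agent.R821.Bp.main G hB h

end Pool.Agent.Results.MP_8fa6fd_gt.ReflexiveZFC
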